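import Pool.Agent.Y746.OM.Stm2
import Pool.Agent.Y220.OM.F

set_option autoImplicit false

/-!
Project OM (helper746), second part: all zeros at distance at least `δ` from the line against the
resonator (after `Pool.Agent.Y220.OM.F`).
-/

namespace Pool.Agent.Y363.OM

open Finset Filter Topology MeasureTheory
open H370 (zset mult NN Zf zz good_zeta mem_Zf sum_refl mult_refl)
open Pool.Agent.Y746.OM Pool.Agent.Y220.OM

theorem t_Fd (hE : S_E) : S_Fd := by
  classical
  obtain ⟨c₀, C₀, T₀, hc₀, hc₀', hC₀, hT₀, hE⟩ := hE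
  obtain ⟨C₁, hC₁, hfar⟩ := far_count
  set c : ℝ := min c₀ (1 / 4000) with hcd
  have hc : 0 < c := lt_min hc₀ (by norm_num)
  have hcc : c ≤ c₀ := min_le_left _ _
  have hc4 : c ≤ 1 / 4000 := min_le_right _ _
  refine ⟨c, 2 * C₀ + 3 * C₁ + 1, T₀, hc, by linarith, by positivity, hT₀, ?_⟩
  intro T hT0 δ hδ2 hδ32 P r Q y hP hr hQ hQT hy
  have hT10 : 10 ≤ T := hT₀.trans hT0
  have hTpos : 0 < T := by linarith
  have hT1 : 1 ≤ T := by linarith
  set l : ℝ := Real.log T with hl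
  have hl1 : 1 ≤ l := by
    rw [hl, Real.le_log_iff_exp_le hTpos]
    have := Real.exp_one_lt_d9
    linarith
  have hlpos : 0 < l := by linarith
  have hδpos : 0 < δ := lt_of_lt_of_le (by positivity) hδ2
  have hE1 := hE T hT0 δ hδ2 hδ32 P r Q y hP hr hQ
    (hQT.trans (Real.rpow_le_rpow_of_exponent_le hT1 hcc)) hy
  have hEP : 0 ≤ EP P r := EP_nonneg hr
  -- the exponentials
  have hexp1 : T ^ (-(c₀ * δ)) ≤ T ^ (-(c * δ)) := by
    apply Real.rpow_le_rpow_of_exponent_le hT1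
    have := mul_le_mul_of_nonneg_right hcc hδpos.le
    linarith
  have hexp2 : T ^ c * T ^ (1 - 1 / 1000 : ℝ) ≤ T * T ^ (-(c * δ)) := by
    have h2 : T * T ^ (-(c * δ)) = T ^ (1 + -(c * δ)) := by
      rw [Real.rpow_add hTpos, Real.rpow_one]
    rw [← Real.rpow_add hTpos, h2]
    apply Real.rpow_le_rpow_of_exponent_le hT1
    have h3 : c * δ ≤ 1 / 4000 * 1 :=
      mul_le_mul hc4 (by linarith) hδpos.le (by norm_num)
    linarith
  set E : ℝ := T ^ (-(c * δ)) with hEd
  have hEpos : 0 < E := Real.rpow_pos_of_pos hTpos _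
  -- the three sums
  set R2 : ℝ → ℝ := fun t => ‖RS P Q y ((t : ℂ) * Complex.I)‖ ^ 2 with hR2
  have hR2c : Continuous R2 := RS_cont hP
  have hR20 : ∀ t, 0 ≤ R2 t := fun t => sq_nonneg _
  set G : ℝ → ℝ := fun t => ∑ s ∈ (Zf riemannZeta T (2 * T)).filter
        (fun s => δ ≤ |s.re - 1 / 2|),
        (mult riemannZeta s : ℝ) * Real.exp (-(s.im - t) ^ 2 / 2) with hG
  set G1 : ℝ → ℝ := fun t => ∑ s ∈ (Zf riemannZeta T (2 * T)).filter
        (fun s => δ ≤ s.re - 1 / 2 ∧ s.re - 1 / 2 ≤ 1 / 32),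
        (mult riemannZeta s : ℝ) * Real.exp (-(s.im - t) ^ 2 / 2) with hG1
  set G3 : ℝ → ℝ := fun t => ∑ s ∈ (Zf riemannZeta T (2 * T)).filter
        (fun s => 1 / 32 < |s.re - 1 / 2|),
        (mult riemannZeta s : ℝ) * Real.exp (-(s.im - t) ^ 2 / 2) with hG3
  have hsc : ∀ S : Finset ℂ, Continuous fun t : ℝ => ∑ s ∈ S, (mult riemannZeta s : ℝ) *
      Real.exp (-(s.im - t) ^ 2 / 2) := fun S =>
    continuous_finsetSum _ fun s _ => continuous_const.mul (gauss_cont s.im)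
  have hGle : ∀ t, G t ≤ 2 * G1 t + G3 t := by
    intro t
    have hm : ∑ s ∈ Zf riemannZeta T (2 * T), (mult riemannZeta s : ℝ) *
        (if δ ≤ -(s.re - 1 / 2) ∧ -(s.re - 1 / 2) ≤ 1 / 32 then
          Real.exp (-(s.im - t) ^ 2 / 2) else 0) =
        ∑ s ∈ Zf riemannZeta T (2 * T), (mult riemannZeta s : ℝ) *
        (if δ ≤ s.re - 1 / 2 ∧ s.re - 1 / 2 ≤ 1 / 32 then
          Real.exp (-(s.im - t) ^ 2 / 2) else 0) :=
      refl_sum hT1 (fun x v => if δ ≤ x ∧ x ≤ 1 / 32 then Real.exp (-(v - t) ^ 2 / 2) else 0)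
    have h1 : G1 t = ∑ s ∈ Zf riemannZeta T (2 * T), (mult riemannZeta s : ℝ) *
        (if δ ≤ s.re - 1 / 2 ∧ s.re - 1 / 2 ≤ 1 / 32 then
          Real.exp (-(s.im - t) ^ 2 / 2) else 0) := by
      rw [hG1]
      dsimp only
      rw [Finset.sum_filter]
      refine Finset.sum_congr rfl fun s _ => ?_
      split_ifs <;> simp
    have h3 : G3 t = ∑ s ∈ Zf riemannZeta T (2 * T), (mult riemannZeta s : ℝ) *
        (if 1 / 32 < |s.re - 1 / 2| then Real.exp (-(s.im - t) ^ 2 / 2) else 0) := by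
      rw [hG3]
      dsimp only
      rw [Finset.sum_filter]
      refine Finset.sum_congr rfl fun s _ => ?_
      split_ifs <;> simp
    have h4 : 2 * G1 t + G3 t = ∑ s ∈ Zf riemannZeta T (2 * T), (mult riemannZeta s : ℝ) *
        ((if δ ≤ s.re - 1 / 2 ∧ s.re - 1 / 2 ≤ 1 / 32 then
          Real.exp (-(s.im - t) ^ 2 / 2) else 0) +
        (if δ ≤ -(s.re - 1 / 2) ∧ -(s.re - 1 / 2) ≤ 1 / 32 then
          Real.exp (-(s.im - t) ^ 2 / 2) else 0) +
        (if 1 / 32 < |s.re - 1 / 2| then Real.exp (-(s.im - t) ^ 2 / 2) else 0)) := by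
      simp only [mul_add, Finset.sum_add_distrib]
      rw [hm, ← h1, ← h3]
      ring
    rw [h4, hG]
    dsimp only
    rw [Finset.sum_filter]
    refine Finset.sum_le_sum fun s _ => ?_
    have h0 : (0 : ℝ) ≤ (mult riemannZeta s : ℝ) := Nat.cast_nonneg _
    have he : 0 < Real.exp (-(s.im - t) ^ 2 / 2) := Real.exp_pos _
    by_cases h5 : δ ≤ |s.re - 1 / 2|
    · rw [if_pos h5]
      refine mul_le_mul_of_nonneg_left ?_ h0
      by_cases h6 : 1 / 32 < |s.re - 1 / 2|
      · rw [if_pos h6]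
        split_ifs <;> linarith
      · rw [not_lt] at h6
        rcases le_total 0 (s.re - 1 / 2) with h7 | h7
        · rw [abs_of_nonneg h7] at h5 h6
          rw [if_pos (⟨h5, h6⟩ : δ ≤ s.re - 1 / 2 ∧ s.re - 1 / 2 ≤ 1 / 32)]
          split_ifs <;> linarith
        · rw [abs_of_nonpos h7] at h5 h6
          rw [if_pos (⟨h5, h6⟩ : δ ≤ -(s.re - 1 / 2) ∧ -(s.re - 1 / 2) ≤ 1 / 32)]
          split_ifs <;> linarith
    · rw [if_neg h5]
      refine mul_nonneg h0 ?_
      split_ifs <;> linarith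
  have hT2 : T ≤ 2 * T := by linarith
  have hint1 : ∫ t in T..(2 * T), R2 t * G t ≤
      ∫ t in T..(2 * T), (2 * (R2 t * G1 t) + R2 t * G3 t) := by
    refine intervalIntegral.integral_mono_on hT2 ?_ ?_ fun t _ => ?_
    · exact (hR2c.mul (hsc _)).intervalIntegrable _ _
    · exact ((continuous_const.mul (hR2c.mul (hsc _))).add
        (hR2c.mul (hsc _))).intervalIntegrable _ _
    · have := mul_le_mul_of_nonneg_left (hGle t) (hR20 t)
      linarith
  have hint2 : ∫ t in T..(2 * T), (2 * (R2 t * G1 t) + R2 t * G3 t) =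
      2 * (∫ t in T..(2 * T), R2 t * G1 t) + ∫ t in T..(2 * T), R2 t * G3 t := by
    rw [intervalIntegral.integral_add, intervalIntegral.integral_const_mul]
    · exact (continuous_const.mul (hR2c.mul (hsc _))).intervalIntegrable _ _
    · exact (hR2c.mul (hsc _)).intervalIntegrable _ _
  have hint3 : ∫ t in T..(2 * T), R2 t * G3 t ≤ Q * EP P r * (3 * (C₁ * T ^ (1 - 1 / 1000 : ℝ))) := by
    have h1 : ∫ t in T..(2 * T), R2 t * G3 t ≤ ∫ t in T..(2 * T), Q * EP P r * G3 t := by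
      refine intervalIntegral.integral_mono_on hT2 ?_ ?_ fun t _ => ?_
      · exact (hR2c.mul (hsc _)).intervalIntegrable _ _
      · exact (continuous_const.mul (hsc _)).intervalIntegrable _ _
      · refine mul_le_mul_of_nonneg_right (RS_bound hP hr hQ hy t) ?_
        exact Finset.sum_nonneg fun s _ => mul_nonneg (Nat.cast_nonneg _) (Real.exp_pos _).le
    refine h1.trans ?_
    rw [intervalIntegral.integral_const_mul]
    refine mul_le_mul_of_nonneg_left ?_ (mul_nonneg (by linarith) hEP)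
    rw [hG3]
    rw [intervalIntegral.integral_finsetSum fun s _ =>
      (continuous_const.mul (gauss_cont s.im)).intervalIntegrable _ _]
    have h2 : ∀ s ∈ (Zf riemannZeta T (2 * T)).filter (fun s => 1 / 32 < |s.re - 1 / 2|),
        ∫ t in T..(2 * T), (mult riemannZeta s : ℝ) * Real.exp (-(s.im - t) ^ 2 / 2) ≤
        3 * (mult riemannZeta s : ℝ) := by
      intro s _
      rw [intervalIntegral.integral_const_mul, mul_comm 3]
      exact mul_le_mul_of_nonneg_left (gauss_le s.im T (2 * T) hT2) (Nat.cast_nonneg _)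
    refine (Finset.sum_le_sum h2).trans ?_
    rw [← Finset.mul_sum]
    exact mul_le_mul_of_nonneg_left (hfar T (by linarith)) (by norm_num)
  -- conclusion
  set C : ℝ := 2 * C₀ + 3 * C₁ + 1 with hCd
  have hlC : 1 ≤ l ^ C := Real.one_le_rpow hl1 (by positivity)
  have hlC0 : l ^ C₀ ≤ l ^ C := Real.rpow_le_rpow_of_exponent_le hl1 (by rw [hCd]; linarith)
  have f1 : ∫ t in T..(2 * T), R2 t * G1 t ≤ C₀ * T * l ^ C * E * EP P r := by
    refine hE1.trans ?_
    refine mul_le_mul_of_nonneg_right ?_ hEP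
    exact mul_le_mul (mul_le_mul_of_nonneg_left hlC0 (by positivity)) hexp1
      (by positivity) (by positivity)
  have f2 : ∫ t in T..(2 * T), R2 t * G3 t ≤ 3 * C₁ * T * l ^ C * E * EP P r := by
    calc ∫ t in T..(2 * T), R2 t * G3 t ≤ Q * EP P r * (3 * (C₁ * T ^ (1 - 1 / 1000 : ℝ))) := hint3
      _ ≤ T ^ c * EP P r * (3 * (C₁ * T ^ (1 - 1 / 1000 : ℝ))) :=
          mul_le_mul_of_nonneg_right (mul_le_mul_of_nonneg_right hQT hEP) (by positivity)
      _ = 3 * C₁ * (T ^ c * T ^ (1 - 1 / 1000 : ℝ)) * EP P r := by ring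
      _ ≤ 3 * C₁ * (T * E) * EP P r :=
          mul_le_mul_of_nonneg_right (mul_le_mul_of_nonneg_left hexp2 (by positivity)) hEP
      _ = 3 * C₁ * T * E * EP P r * 1 := by ring
      _ ≤ 3 * C₁ * T * E * EP P r * l ^ C :=
          mul_le_mul_of_nonneg_left hlC (by positivity)
      _ = 3 * C₁ * T * l ^ C * E * EP P r := by ring
  calc ∫ t in T..(2 * T), R2 t * G t ≤
        2 * (∫ t in T..(2 * T), R2 t * G1 t) + ∫ t in T..(2 * T), R2 t * G3 t := by
        rw [← hint2]; exact hint1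
    _ ≤ 2 * (C₀ * T * l ^ C * E * EP P r) + 3 * C₁ * T * l ^ C * E * EP P r := by
        linarith
    _ = (2 * C₀ + 3 * C₁) * (T * l ^ C * E * EP P r) := by ring
    _ ≤ C * (T * l ^ C * E * EP P r) := by
        refine mul_le_mul_of_nonneg_right (by rw [hCd]; linarith) (by positivity)
    _ = C * T * l ^ C * E * EP P r := by ring

end Pool.Agent.Y363.OM
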